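import Pool.Agent.X295.MixNF

/-!
# MP_a325a5_ag: Zilber-Pink in `Y(1)^n × G_m^k` for almost all the members, over a number field, of
families of curves with any number of parameters which degenerate along several hypersurfaces

`Y(1)^n × G_m^k` is the set of all `x ∈ ℂ^(n+k)` whose last `k` coordinates are not zero, where
`Y(1)` is identified with `ℂ` by the elliptic modular function `jj = j = E₄³ / Δ`. Its special
subvarieties are the products `Z × T`, where `Z` is a special subvariety of `Y(1)^n` and `T` is a
torsion coset of `G_m^k`. Here `Z` is given by a `SpecialVariety`: its points are the points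
with `x_i = const_i` for the constant coordinates and `x_i = j (g_i z_l)` for the coordinates of
class `l`, with `z_1, …, z_r` free in the upper half plane and `g_i` a fixed integral matrix of
positive determinant. In the definition of special subvarieties the constants are values of `j` at CM
points. We allow also all constants which are integral over the ring generated by a given finite set
`Γ` of algebraic numbers. `T` is given by a group `M` of exponent vectors and a point `η` of finite
order: `T` is the set of all `t` with `t ^ a = η ^ a` for all `a ∈ M`. The dimension of `Z × T` is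
`r + (k - rank M)`, so its codimension is `n + rank M - r`.

**Families of curves.** Let `F_l` be finitely many forms in the homogeneous coordinates
`(X_1, Z_1), …, (X_{n+k}, Z_{n+k})` of `(P¹)^(n+k)`, whose coefficients are polynomials in the
parameters `t_1, …, t_q` over the field of the algebraic numbers. They define an algebraic family of
subschemes `V_t` of `(P¹)^(n+k)`. Let `h_1, …, h_K` be irreducible polynomials in `t` over the algebraic
numbers, where `K ≥ 3` and `K ≥ k (k - 1)`, such that `h_i` is not a constant multiple of a conjugate
of `h_j` for `i ≠ j`. We assume that for each `i` the generic member of the family `V_t` over the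
hypersurface `h_i = 0` is a curve in general position (`GoodAlong`):

* it is geometrically integral: for all algebraically closed fields `k'` and all homomorphisms `π` from
  the ring of the polynomials in `t` to `k'` with the kernel `(h_i)`, the ideals in the affine charts
  where all `Z_j = 1` and where `X_b = 1`, `Z_j = 1` for `j ≠ b` are prime ideals, and the coordinates
  `x_j` are not constant;
* for `j ≠ l` the ideal generated by the `F_l` contains a form
  `∑_{a' ≤ a, b' ≤ b} g_{a'b'} X_j ^ a' Z_j ^ (a - a') X_l ^ b' Z_l ^ (b - b')`, where `g_{00}, g_{a0},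
  g_{0b}, g_{ab}` are not divisible by `h_i`, and where the form over `k'` is not divisible by a form
  `X_j - c Z_j`. So the zeros and poles of `x_j` on the generic member over `h_i = 0` are different
  from those of `x_l`, and it is a curve (for `n + k ≥ 2`) which is covered by the charts.

Let `C_t ⊂ Y(1)^n × G_m^k` be the set of all `x` with `x_j = lam_j (t) y_j`, `j ≤ n`, and
`x_{n+l} = nu_l (t) y_{n+l} ≠ 0`, `l ≤ k`, for a point `y` of `V_t ∩ ℂ^(n+k)`, where
`lam_j = a_j / (g_j ∏_i h_i ^ (w_ij))` with `w_ij > 0`, `nu_l = (A_l / B_l) ∏_i h_i ^ (c_il)`, and where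
the polynomials `a_j`, `g_j`, `A_l`, `B_l` over the algebraic numbers are not divisible by any of the
`h_i`. So `lam_j` is any rational function with poles of arbitrary orders `w_ij > 0` along all of the
hypersurfaces `h_i = 0`, and `nu_l` is any rational function, of order `c_il` along `h_i = 0`, where
`c` is `Independent` (for `k ≤ 1` this is no condition, for `k = 2` it means that all `c_il` are
different from zero).

**Theorem.** Let `ω_0 = 1, ω_1, …, ω_r` be algebraic numbers, for example an integral basis of a number
field `E`, `[E : ℚ] = r + 1`. For all `ε > 0` and for all but `O(H^(q (r + 1) - 1 + ε))` of the integral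
`u = (u_{j b})` with `|u_{j b}| ≤ H` the curve `C_t` with the parameters `t_j = ∑_b ω_b u_{j b}`
satisfies the Zilber-Pink conjecture:

* there are only finitely many points of `C_t` on special subvarieties of `Y(1)^n × G_m^k` of
  codimension at least two,
* each proper special subvariety of `Y(1)^n × G_m^k` contains only finitely many points of `C_t`.

So it holds for one hundred percent of the `t ∈ O_E^q`, for every number field `E`, with a power
saving. There is no condition on single members `V_t`, also not on the members over `h_i = 0`, which
may be singular or reducible, of any genus, and have varying moduli.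

**Earlier results.** `MP_defd1c_ag/DegenerateDivisors` (ours) is the theorem for integral vectors
`t ∈ ℤ^q` and hypersurfaces `h_i = 0` defined over `ℤ`, irreducible over `ℂ`; the starting file
`MixedCuspidalReduction` treats single curves with good reduction at a few large primes. The pure
case `k = 0` with one hypersurface is our `MP_e573c6_ag/NumberFieldFamilies`. New is here the treatment
of several hypersurfaces over number fields: the prime numbers below the places at which the `h_i (t)`
are small have to be different, so norms of the polynomials `h_j (∑_b ω_b u_b)` have to be prime to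
the polynomials `h_i (∑_b ω_b u_b)`, which is proved with the linear independence of
non-conjugate linear forms, and the values at these places have to be almost unramified
(`X295/Ord`, `X295/GenMixK`, `X295/MixNF`).
-/

set_option autoImplicit false

namespace Pool.Agent.Results.MP_a325a5_ag.CurvesOverNumberFields

open Pool.Agent.X295.NF

/-- The Zilber-Pink conjecture in `Y(1)^n × G_m^k` for the members with parameters in a lattice of
algebraic numbers of families of curves with `q` parameters which degenerate along `K` hypersurfaces
to curves in general position. -/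
theorem result {n k q K r : ℕ} {κ : Type} [Finite κ] (hK3 : 3 ≤ K) (hK : k * (k - 1) ≤ K)
    (ω : Fin (r + 1) → algebraicClosure ℚ ℂ) (hω0 : ω 0 = 1)
    (h : Fin K → Parameters q) (hirr : ∀ i, Irreducible (h i))
    (hne : ∀ i j, i ≠ j → ∀ σ : algebraicClosure ℚ ℂ ≃ₐ[ℚ] algebraicClosure ℚ ℂ,
      ¬ h i ∣ MvPolynomial.map (σ : algebraicClosure ℚ ℂ →+* algebraicClosure ℚ ℂ) (h j))
    (F : κ → MvPolynomial (Fin (n + k) × Bool) (Parameters q)) (hF : ∀ i, GoodAlong (h i) F)
    (S : Scaling n k q K) (hS : S.Exact h) (hc : Independent S.c)
    (Γ : Set ℂ) (hΓ : Γ.Finite) (hΓa : ∀ γ ∈ Γ, IsAlgebraic ℚ γ) (ε : ℝ) (hε : 0 < ε) :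
    ∃ C : ℝ, ∀ H : ℕ, 1 ≤ H →
      ({u : Fin q → Fin (r + 1) → ℤ | (∀ j b, |u j b| ≤ H) ∧ ¬ ZilberPinkM Γ (scaledMemberM F
        (fun j => ∑ b, (ω b : ℂ) * (u j b : ℂ))
        (S.lam h (fun j => ∑ b, (ω b : ℂ) * (u j b : ℂ)))
        (S.nu h (fun j => ∑ b, (ω b : ℂ) * (u j b : ℂ))))}.ncard : ℝ) ≤
          C * (H : ℝ) ^ ((q : ℝ) * (r + 1) - 1 + ε) := by
  obtain ⟨C, hC⟩ := mixNF hK3 hK ω hω0 h hirr hne F hF S hS hc Γ hΓ hΓa ε hε
  refine ⟨C, fun H hH => ?_⟩
  have h1 : {u : Fin q → Fin (r + 1) → ℤ | (∀ j b, |u j b| ≤ H) ∧ ¬ ZilberPinkM Γ (scaledMemberM F
        (fun j => ∑ b, (ω b : ℂ) * (u j b : ℂ))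
        (S.lam h (fun j => ∑ b, (ω b : ℂ) * (u j b : ℂ)))
        (S.nu h (fun j => ∑ b, (ω b : ℂ) * (u j b : ℂ))))} =
      {u : Fin q → Fin (r + 1) → ℤ | ¬ ZilberPinkM Γ (scaledMemberM F
        (fun j => ∑ b, (ω b : ℂ) * (u j b : ℂ))
        (S.lam h (fun j => ∑ b, (ω b : ℂ) * (u j b : ℂ)))
        (S.nu h (fun j => ∑ b, (ω b : ℂ) * (u j b : ℂ))))} ∩ {u | ∀ j b, |u j b| ≤ H} := by
    ext u
    exact and_comm
  rw [h1]
  exact hC H hH

end Pool.Agent.Results.MP_a325a5_ag.CurvesOverNumberFields
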