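import Pool.Agent.Results.MP_a325a5_ag.NumberFieldFamilies
import Pool.Agent.X134.Win.MembI

/-!
# MP_a325a5_ag: Zilber-Pink in `Y(1)^n × G_m^k` for all the members in short cubes, of all families over a
countable field at once

Let `K ⊂ ℂ` be a countable field, `q ≥ 1` and `r` be fixed, `v ≥ 1` a sequence of exponent of convergence
at most `τ` (`τ = 0` for `v_l = b ^ l`, `τ = 1 / b` for `v_l = (l + 1) ^ b`) and `θ < 1`.

**Theorem.** There is one set `E` of real `q × (r + 1)`-matrices of Hausdorff dimension at most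
`(q (r + 1) - 1 + τ) / (1 - θ)` such that for each matrix `α` outside of `E` the following holds for ALL
families `X_t` of subsets of `Y(1)^n × G_m^k` (any `n`, `k`, any dimension `m`) with `q` parameters over
`K` which degenerate along sufficiently many hypersurfaces as in our `NumberFieldFamilies` (see there)
and ALL algebraic numbers `ω_0 ≠ 0, ω_1, …, ω_r` in `K` (for example the integral bases of all number
fields of degree `r + 1` in `K`): for all large `l`, for ALL integral matrices `u` in the cube with the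
centre `v_l α` and the side `2 v_l ^ θ` the member `X_t` with the parameters `t_j = ∑_b ω_b u_{j b}` has
no atypical intersection with special subvarieties `Z × (torsion coset)` of `Y(1)^n × G_m^k`, in all
dimensions.

The set `E` is small (of dimension less than `q (r + 1)`) if `θ q (r + 1) + τ < 1`; then almost all
matrices are outside of `E`, and the cubes contain about `(2 v_l ^ θ) ^ (q (r + 1))` members, without
exception.
-/

set_option autoImplicit false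

namespace Pool.Agent.Results.MP_a325a5_ag.MembersInCubes

open MvPolynomial MeasureTheory Pool.Agent.X295 Pool.Agent.Y152.RP.FamM

/-- the exponent of convergence of the sequence `v` is at most `τ` -/
def ExpLe (v : ℕ → ℝ) (τ : ℝ) : Prop := ∀ t : ℝ, τ < t → Summable (fun n : ℕ => (v n) ^ (-t))

/-- The number `max {(k - 1 - s) C(k, s) : 0 ≤ s ≤ m}`. -/
def torusNumber (k m : ℕ) : ℕ := (Finset.range (m + 1)).sup fun s => (k - 1 - s) * k.choose s

/-- The orders `e` along the `M` hypersurfaces are positive and independent. The last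
condition says that all square minors of the matrix of the orders of the torus coordinates are
nonzero. -/
def Independent {n k M : ℕ} (T m : ℕ) (e : Fin M → Fin n ⊕ Fin k → ℕ) : Prop :=
  (∀ l i, 0 < e l i) ∧
  ((m + 1 + max 1 (torusNumber k m) ≤ M ∧
    ∀ P : Finset (Fin M × Fin n), P.Nonempty → ∀ a, 0 < a → a ≤ T ^ (2 * (M * n)) →
      ¬ IsSquare (a * ∏ p ∈ P, e p.1 (Sum.inl p.2))) ∨
  ((min (m + 2) n).choose 2 + torusNumber k m + 1 ≤ M ∧
    ∀ l l', l ≠ l' → ∀ i j : Fin n, i ≠ j → ∀ a, 0 < a → a ≤ T ^ 8 →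
      ¬ IsSquare (a * (e l (Sum.inl i) * e l (Sum.inl j) *
        (e l' (Sum.inl i) * e l' (Sum.inl j)))))) ∧
  ∀ (s : Finset (Fin M)) (J : Finset (Fin k)) (b : Fin k → ℤ), J.card ≤ s.card →
    (∀ j, j ∉ J → b j = 0) → (∀ l ∈ s, ∑ j, b j * (e l (Sum.inr j) : ℤ) = 0) → b = 0

/-- for all families with `q` parameters over `K` which degenerate along sufficiently many hypersurfaces
and all algebraic `ω` in `K`: for all large `l` all members with integral parameter matrices in the cube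
with the centre `v_l α` and the side `2 v_l ^ θ` have no atypical intersection -/
def AllMembers (K : Subfield ℂ) (q r : ℕ) (v : ℕ → ℝ) (α : Fin q × Fin (r + 1) → ℝ) (θ : ℝ) : Prop :=
  ∀ (N n k m M T a : ℕ), 0 < k → ∀ (ω : Fin (r + 1) → K), ω 0 ≠ 0 → (∀ b, IsAlgebraic ℚ (ω b : ℂ)) → ∀
    (G : Fin a → MvPolynomial (Fin (N + 1)) (MvPolynomial (Fin q) K)),
    (∀ k, ∃ e, (G k).IsHomogeneous e) → ∀
    (A B : Fin n ⊕ Fin k → MvPolynomial (Fin (N + 1)) (MvPolynomial (Fin q) K))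
    (d : Fin n ⊕ Fin k → ℕ),
    (∀ i, (A i).IsHomogeneous (d i)) → (∀ i, (B i).IsHomogeneous (d i)) → ∀
    (R : Fin n → Polynomial (Polynomial K)), (∀ i, (R i).Monic) →
    (∀ i u w, ((R i).coeff u).coeff w ≠ 0 → u ≤ T ∧ w ≤ T) → ∀
    (c : Fin n ⊕ Fin k → MvPolynomial (Fin q) K) (h : Fin M → MvPolynomial (Fin q) K)
    (e : Fin M → Fin n ⊕ Fin k → ℕ), (∀ l, DegeneratesAlongK m G A B c (h l) (e l)) →
    Independent T m e → ∀ (Γ : Finset ℂ), (∀ γ ∈ Γ, γ ∈ K) →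
    ∃ l₀ : ℕ, ∀ l : ℕ, l₀ ≤ l → ∀ u : Fin q → Fin (r + 1) → ℤ,
      (∀ j b, |(u j b : ℝ) - α (j, b) * v l| ≤ (v l) ^ θ) →
        NoAtypical (algebraMap (Algebra.adjoin ℤ (Γ : Set ℂ)) ℂ) K m
          (scaledImageX (fun j => ∑ b, (ω b : ℂ) * (u j b : ℂ)) G A B R c)

section Proof

/-- the data of a family -/
abbrev Idx (K : Subfield ℂ) (q r : ℕ) : Type :=
  Σ N : ℕ, Σ n : ℕ, Σ k : ℕ, Σ a : ℕ, (ℕ × ℕ) × (Fin (r + 1) → K) ×
    (Fin a → MvPolynomial (Fin (N + 1)) (MvPolynomial (Fin q) K)) ×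
    (Fin n ⊕ Fin k → MvPolynomial (Fin (N + 1)) (MvPolynomial (Fin q) K)) ×
    (Fin n ⊕ Fin k → MvPolynomial (Fin (N + 1)) (MvPolynomial (Fin q) K)) ×
    (Fin n → Polynomial (Polynomial K)) × (Fin n ⊕ Fin k → MvPolynomial (Fin q) K) ×
    {Γ : Finset ℂ // ∀ γ ∈ Γ, γ ∈ (K : Set ℂ)}

theorem countable_idx (K : Subfield ℂ) [Countable K] (q r : ℕ) : Countable (Idx K q r) := by
  have h0 := Pool.Agent.X134.Win.countable_mvPolynomial (Fin q) K
  have h1 : ∀ N : ℕ, Countable (MvPolynomial (Fin (N + 1)) (MvPolynomial (Fin q) K)) := fun N =>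
    Pool.Agent.X134.Win.countable_form K (Fin (N + 1)) q
  have h2 := Pool.Agent.X134.Win.countable_polyPoly K
  have h3 := Pool.Agent.X134.Win.countable_finset (s := (K : Set ℂ)) (Set.countable_coe_iff.1 ‹_›)
  have h4 : ∀ n k N : ℕ, Countable
      (Fin n ⊕ Fin k → MvPolynomial (Fin (N + 1)) (MvPolynomial (Fin q) K)) := fun _ _ _ =>
    inferInstance
  have h5 : ∀ n k : ℕ, Countable (Fin n ⊕ Fin k → MvPolynomial (Fin q) K) := fun _ _ =>
    inferInstance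
  have h6 : ∀ n : ℕ, Countable (Fin n → Polynomial (Polynomial K)) := fun _ => inferInstance
  have h7 : ∀ a N : ℕ, Countable
      (Fin a → MvPolynomial (Fin (N + 1)) (MvPolynomial (Fin q) K)) := fun _ _ => inferInstance
  have h8 : Countable (Fin (r + 1) → K) := inferInstance
  have h9 : ∀ N n k a : ℕ, Countable ((ℕ × ℕ) × (Fin (r + 1) → K) ×
      (Fin a → MvPolynomial (Fin (N + 1)) (MvPolynomial (Fin q) K)) ×
      (Fin n ⊕ Fin k → MvPolynomial (Fin (N + 1)) (MvPolynomial (Fin q) K)) ×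
      (Fin n ⊕ Fin k → MvPolynomial (Fin (N + 1)) (MvPolynomial (Fin q) K)) ×
      (Fin n → Polynomial (Polynomial K)) × (Fin n ⊕ Fin k → MvPolynomial (Fin q) K) ×
      {Γ : Finset ℂ // ∀ γ ∈ Γ, γ ∈ (K : Set ℂ)}) := fun _ _ _ _ => inferInstance
  have h10 : ∀ N n k : ℕ, Countable (Σ a : ℕ, (ℕ × ℕ) × (Fin (r + 1) → K) ×
      (Fin a → MvPolynomial (Fin (N + 1)) (MvPolynomial (Fin q) K)) ×
      (Fin n ⊕ Fin k → MvPolynomial (Fin (N + 1)) (MvPolynomial (Fin q) K)) ×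
      (Fin n ⊕ Fin k → MvPolynomial (Fin (N + 1)) (MvPolynomial (Fin q) K)) ×
      (Fin n → Polynomial (Polynomial K)) × (Fin n ⊕ Fin k → MvPolynomial (Fin q) K) ×
      {Γ : Finset ℂ // ∀ γ ∈ Γ, γ ∈ (K : Set ℂ)}) := fun _ _ _ => inferInstance
  exact @instCountableSigma _ _ _ fun N => @instCountableSigma _ _ _ fun n =>
    @instCountableSigma _ _ _ fun k => h10 N n k

/-- the hypotheses for the data -/
def Hyp (K : Subfield ℂ) (q r : ℕ) (x : Idx K q r) : Prop :=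
  match x with
  | ⟨_, _, k, _, (m, T), ω, G, A, B, R, c, _⟩ => 0 < k ∧ ω 0 ≠ 0 ∧ (∀ b, IsAlgebraic ℚ (ω b : ℂ)) ∧
    (∀ k, ∃ e, (G k).IsHomogeneous e) ∧
    (∃ d : Fin _ ⊕ Fin _ → ℕ, (∀ i, (A i).IsHomogeneous (d i)) ∧ (∀ i, (B i).IsHomogeneous (d i))) ∧
    (∀ i, (R i).Monic) ∧ (∀ i u w, ((R i).coeff u).coeff w ≠ 0 → u ≤ T ∧ w ≤ T) ∧
    ∃ (M : ℕ) (h : Fin M → MvPolynomial (Fin q) K) (e : Fin M → Fin _ ⊕ Fin _ → ℕ),
      (∀ l, DegeneratesAlongK m G A B c (h l) (e l)) ∧ Independent T m e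

/-- the conclusion for the data -/
def Good (K : Subfield ℂ) (q r : ℕ) (x : Idx K q r) (u : Fin q → Fin (r + 1) → ℤ) : Prop :=
  match x with
  | ⟨_, _, _, _, (m, _), ω, G, A, B, R, c, Γ⟩ =>
    NoAtypical (algebraMap (Algebra.adjoin ℤ (Γ.1 : Set ℂ)) ℂ) K m
      (scaledImageX (fun j => ∑ b, (ω b : ℂ) * (u j b : ℂ)) G A B R c)

end Proof

/-- **Theorem.** See the header. -/
theorem result :
    (∀ (K : Subfield ℂ) [Countable K] (q r : ℕ), 0 < q → ∀ (v : ℕ → ℝ) (τ θ : ℝ),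
      (∀ l, 1 ≤ v l) → 0 ≤ τ → ExpLe v τ → θ < 1 →
      ∃ E : Set (Fin q × Fin (r + 1) → ℝ),
        dimH E ≤ ENNReal.ofReal (((q : ℝ) * (r + 1) - 1 + τ) / (1 - θ)) ∧
        ∀ α : Fin q × Fin (r + 1) → ℝ, α ∉ E → AllMembers K q r v α θ) ∧
    (∀ b : ℝ, 0 < b → ExpLe (fun n : ℕ => ((n : ℝ) + 1) ^ b) (1 / b)) ∧
    (∀ b : ℝ, 1 < b → ExpLe (fun n : ℕ => b ^ n) 0) := by
  classical
  refine ⟨fun K _ q r hq v τ θ hv hτ hE hθ => ?_, fun b hb => Pool.Agent.Y854.GM.expLe_pow b hb,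
    fun b hb => Pool.Agent.Y854.GM.expLe_geom b hb⟩
  have hcount := countable_idx K q r
  have hs : (0 : ℝ) ≤ (q : ℝ) * (r + 1) - 1 := by
    have h1 : (1 : ℝ) ≤ q := by exact_mod_cast hq
    have h2 : (0 : ℝ) ≤ r := Nat.cast_nonneg r
    nlinarith
  obtain ⟨E, hE1, hE2⟩ := Pool.Agent.X134.Win.membM_c (ι := Idx K q r)
    (fun x u => Hyp K q r x → Good K q r x u) hs (by
      rintro ⟨N, n, k, a, ⟨m, T⟩, ω, G, A, B, R, c, Γ⟩ ε hε
      by_cases hyp : Hyp K q r ⟨N, n, k, a, (m, T), ω, G, A, B, R, c, Γ⟩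
      · obtain ⟨h0, h1, h2, h3, ⟨d, h4, h5⟩, h6, h7, M, h, e, h8, h9⟩ := id hyp
        obtain ⟨C, hC⟩ := NumberFieldFamilies.result K (Fin a) q N n k m M T r h0 ω h1 h2 G h3 A B d
          h4 h5 R h6 h7 c h e h8 h9 Γ.1 Γ.2 ε hε
        refine ⟨C, fun H hH => ?_⟩
        have h10 : {u : Fin q → Fin (r + 1) → ℤ | (∀ j b, |u j b| ≤ H) ∧
            ¬ (Hyp K q r ⟨N, n, k, a, (m, T), ω, G, A, B, R, c, Γ⟩ →
              Good K q r ⟨N, n, k, a, (m, T), ω, G, A, B, R, c, Γ⟩ u)} =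
            {u : Fin q → Fin (r + 1) → ℤ | (∀ j b, |u j b| ≤ H) ∧
              ¬ NoAtypical (algebraMap (Algebra.adjoin ℤ (Γ.1 : Set ℂ)) ℂ) K m
                (scaledImageX (fun j => ∑ b, (ω b : ℂ) * (u j b : ℂ)) G A B R c)} := by
          ext u
          exact ⟨fun hu => ⟨hu.1, fun hg => hu.2 fun _ => hg⟩, fun hu => ⟨hu.1, fun hg => hu.2 (hg hyp)⟩⟩
        rw [h10]
        exact hC H hH
      · refine ⟨0, fun H _ => ?_⟩
        have h10 : {u : Fin q → Fin (r + 1) → ℤ | (∀ j b, |u j b| ≤ H) ∧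
            ¬ (Hyp K q r ⟨N, n, k, a, (m, T), ω, G, A, B, R, c, Γ⟩ →
              Good K q r ⟨N, n, k, a, (m, T), ω, G, A, B, R, c, Γ⟩ u)} = ∅ :=
          Set.eq_empty_iff_forall_notMem.2 fun u hu => hu.2 fun h => absurd h hyp
        rw [h10, Set.ncard_empty, Nat.cast_zero, zero_mul]) hv hτ hE hθ
  refine ⟨E, hE1, fun α hα => ?_⟩
  intro N n k m M T a h0 ω h1 h2 G h3 A B d h4 h5 R h6 h7 c h e h8 h9 Γ hΓ
  obtain ⟨l₀, hl₀⟩ := hE2 α hα ⟨N, n, k, a, (m, T), ω, G, A, B, R, c, ⟨Γ, hΓ⟩⟩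
  exact ⟨l₀, fun l hl u hu => hl₀ l hl u hu
    ⟨h0, h1, h2, h3, ⟨d, h4, h5⟩, h6, h7, M, h, e, h8, h9⟩⟩

end Pool.Agent.Results.MP_a325a5_ag.MembersInCubes
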