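import Pool.Agent.Results.MP_a325a5_ag.MembersInCubes
import Pool.Agent.X134.Win.MembN

/-!
# MP_a325a5_ag: Zilber-Pink in `Y(1)^n × G_m^k` for all the members near generic targets, of all families
over a countable field at once

Let `K ⊂ ℂ` be a countable field, `q ≥ 1` and `r` be fixed, `f` an arbitrary map of the integral
`q × (r + 1)`-matrices to a metric space `Y` (for example the embedding in the `p`-adic matrices, or in
the product over several primes, or the direction `u / |u|`, or these maps together) and `η₀ ≥ 0`.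

**Theorem.** There is one set `E ⊆ Y` of Hausdorff dimension at most `(q (r + 1) - 1) / η₀` (of
dimension zero if `q (r + 1) = 1`, also for `η₀ = 0`) such that for each target `y` outside of `E` the
following holds for all `η > η₀`, ALL families `X_t` of subsets of `Y(1)^n × G_m^k` (any `n`, `k`, any
dimension `m`) with `q` parameters over `K` which degenerate along sufficiently many hypersurfaces as in
our `NumberFieldFamilies` (see there) and ALL algebraic numbers `ω_0 ≠ 0, ω_1, …, ω_r` in `K` (for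
example the integral bases of all number fields of degree `r + 1` in `K`): for all large `H`, for ALL
integral matrices `u` with `|u| ≤ H` and `dist (f u) y ≤ H ^ (-η)` the member `X_t` with the parameters
`t_j = ∑_b ω_b u_{j b}` has no atypical intersection with special subvarieties `Z × (torsion coset)` of
`Y(1)^n × G_m^k`, in all dimensions.

For example let `Y` be the space of the `p`-adic integral matrices, of dimension `D = q (r + 1)`, and
`1 - 1 / D < η₀ < η < 1`. Then `E` has dimension less than `D`, so it is a null set, and there are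
about `(2 H ^ (1 - η)) ^ D` integral matrices `u` with `|u| ≤ H` and `|u - y|_p ≤ H ^ (-η)`, all of them
without exception. In our `MembersInCubes` the members lie in short cubes.
-/

set_option autoImplicit false

namespace Pool.Agent.Results.MP_a325a5_ag.MembersNearTargets

open MvPolynomial MeasureTheory Pool.Agent.X295 Pool.Agent.Y152.RP.FamM
open MembersInCubes (Independent Idx countable_idx Hyp Good)

/-- for all families with `q` parameters over `K` which degenerate along sufficiently many hypersurfaces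
and all algebraic `ω` in `K`: for all large `H` all members with integral parameter matrices `u` with
`|u| ≤ H` and `dist (f u) y ≤ H ^ (-η)` have no atypical intersection -/
def AllMembers (K : Subfield ℂ) (q r : ℕ) {Y : Type} [MetricSpace Y]
    (f : (Fin q → Fin (r + 1) → ℤ) → Y) (y : Y) (η : ℝ) : Prop :=
  ∀ (N n k m M T a : ℕ), 0 < k → ∀ (ω : Fin (r + 1) → K), ω 0 ≠ 0 → (∀ b, IsAlgebraic ℚ (ω b : ℂ)) → ∀
    (G : Fin a → MvPolynomial (Fin (N + 1)) (MvPolynomial (Fin q) K)),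
    (∀ k, ∃ e, (G k).IsHomogeneous e) → ∀
    (A B : Fin n ⊕ Fin k → MvPolynomial (Fin (N + 1)) (MvPolynomial (Fin q) K))
    (d : Fin n ⊕ Fin k → ℕ),
    (∀ i, (A i).IsHomogeneous (d i)) → (∀ i, (B i).IsHomogeneous (d i)) → ∀
    (R : Fin n → Polynomial (Polynomial K)), (∀ i, (R i).Monic) →
    (∀ i u w, ((R i).coeff u).coeff w ≠ 0 → u ≤ T ∧ w ≤ T) → ∀
    (c : Fin n ⊕ Fin k → MvPolynomial (Fin q) K) (h : Fin M → MvPolynomial (Fin q) K)
    (e : Fin M → Fin n ⊕ Fin k → ℕ), (∀ l, DegeneratesAlongK m G A B c (h l) (e l)) →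
    Independent T m e → ∀ (Γ : Finset ℂ), (∀ γ ∈ Γ, γ ∈ K) →
    ∃ H₀ : ℕ, ∀ H : ℕ, H₀ ≤ H → ∀ u : Fin q → Fin (r + 1) → ℤ,
      (∀ j b, |u j b| ≤ (H : ℤ)) → dist (f u) y ≤ (H : ℝ) ^ (-η) →
        NoAtypical (algebraMap (Algebra.adjoin ℤ (Γ : Set ℂ)) ℂ) K m
          (scaledImageX (fun j => ∑ b, (ω b : ℂ) * (u j b : ℂ)) G A B R c)

/-- **Theorem.** See the header. -/
theorem result (K : Subfield ℂ) [Countable K] (q r : ℕ) (hq : 0 < q) (Y : Type) [MetricSpace Y]
    (f : (Fin q → Fin (r + 1) → ℤ) → Y) (η₀ : ℝ) (hη₀ : 0 ≤ η₀) :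
    ∃ E : Set Y, dimH E ≤ ENNReal.ofReal ((q : ℝ) * (r + 1) - 1) / ENNReal.ofReal η₀ ∧
      ∀ y : Y, y ∉ E → ∀ η : ℝ, η₀ < η → AllMembers K q r f y η := by
  classical
  have hcount := countable_idx K q r
  have hs : (0 : ℝ) ≤ (q : ℝ) * (r + 1) - 1 := by
    have h1 : (1 : ℝ) ≤ q := by exact_mod_cast hq
    have h2 : (0 : ℝ) ≤ r := Nat.cast_nonneg r
    nlinarith
  obtain ⟨E, hE1, hE2⟩ := Pool.Agent.X134.Win.nearM_all (ι := Idx K q r)
    (fun x u => Hyp K q r x → Good K q r x u) hs (by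
      rintro ⟨N, n, k, a, ⟨m, T⟩, ω, G, A, B, R, c, Γ⟩ ε hε
      by_cases hyp : Hyp K q r ⟨N, n, k, a, (m, T), ω, G, A, B, R, c, Γ⟩
      · obtain ⟨h0, h1, h2, h3, ⟨d, h4, h5⟩, h6, h7, M, h, e, h8, h9⟩ := id hyp
        obtain ⟨C, hC⟩ := NumberFieldFamilies.result K (Fin a) q N n k m M T r h0 ω h1 h2 G h3 A B d
          h4 h5 R h6 h7 c h e h8 h9 Γ.1 Γ.2 ε hε
        refine ⟨C, fun H hH => ?_⟩
        have h10 : {u : Fin q → Fin (r + 1) → ℤ | (∀ j b, |u j b| ≤ H) ∧
            ¬ (Hyp K q r ⟨N, n, k, a, (m, T), ω, G, A, B, R, c, Γ⟩ →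
              Good K q r ⟨N, n, k, a, (m, T), ω, G, A, B, R, c, Γ⟩ u)} =
            {u : Fin q → Fin (r + 1) → ℤ | (∀ j b, |u j b| ≤ H) ∧
              ¬ NoAtypical (algebraMap (Algebra.adjoin ℤ (Γ.1 : Set ℂ)) ℂ) K m
                (scaledImageX (fun j => ∑ b, (ω b : ℂ) * (u j b : ℂ)) G A B R c)} := by
          ext u
          exact ⟨fun hu => ⟨hu.1, fun hg => hu.2 fun _ => hg⟩, fun hu => ⟨hu.1, fun hg => hu.2 (hg hyp)⟩⟩
        rw [h10]
        exact hC H hH
      · refine ⟨0, fun H _ => ?_⟩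
        have h10 : {u : Fin q → Fin (r + 1) → ℤ | (∀ j b, |u j b| ≤ H) ∧
            ¬ (Hyp K q r ⟨N, n, k, a, (m, T), ω, G, A, B, R, c, Γ⟩ →
              Good K q r ⟨N, n, k, a, (m, T), ω, G, A, B, R, c, Γ⟩ u)} = ∅ :=
          Set.eq_empty_iff_forall_notMem.2 fun u hu => hu.2 fun h => absurd h hyp
        rw [h10, Set.ncard_empty, Nat.cast_zero, zero_mul]) f hη₀
  refine ⟨E, hE1, fun y hy η hη => ?_⟩
  intro N n k m M T a h0 ω h1 h2 G h3 A B d h4 h5 R h6 h7 c h e h8 h9 Γ hΓ
  obtain ⟨H₀, hH₀⟩ := hE2 y hy η hη ⟨N, n, k, a, (m, T), ω, G, A, B, R, c, ⟨Γ, hΓ⟩⟩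
  exact ⟨H₀, fun H hH u hu hd => hH₀ H hH u hu hd
    ⟨h0, h1, h2, h3, ⟨d, h4, h5⟩, h6, h7, M, h, e, h8, h9⟩⟩

end Pool.Agent.Results.MP_a325a5_ag.MembersNearTargets
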