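import Pool.Agent.X295.Lin

/-!
# MP_a325a5_ag: Zilber-Pink in `Y(1)^n × G_m^k` for almost all members, over a number field, of
families with any number of parameters

The mixed Shimura variety is `Y(1)^n × G_m^k`, `k ≥ 1`; the factor `Y(1)^n` is identified with `ℂ^n` by
the elliptic modular function `jj = j = E₄³ / Δ`. Let `K ⊂ ℂ` be any countable field (for example
finitely generated, of any transcendence degree).

**Families.** We consider algebraic families `X_t` of subsets of `Y(1)^n × G_m^k` with `q` parameters
`t = (t_1, …, t_q)`, given by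
* a family `B_t ⊆ P^N` of projective algebraic sets, defined by forms `G k` with coefficients in
  `K[t_1, …, t_q]`,
* quotients `f_i = A_i / B_i` of forms of the same degree `d_i` with coefficients in `K[t]`, for
  the `n` modular coordinates (`i = inl _`) and the `k` torus coordinates (`i = inr _`),
* functions `s_i` integral over `K[j]`, `R_i (s_i, j) = 0` with `R_i` monic in the first variable
  (level one: `R_i = S - J`, `s_i = j`; in general modular functions of any level without poles
  in the upper half plane), and polynomials `c_i ∈ K[t]`: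
`X_t` is the set of the points `x` for which there are a point `y ∈ B_t` and values `s_i` over the
modular coordinates `x_i` with `c_i (t) s_i = f_i (y)` for the modular coordinates and
`c_j (t) x_j = f_j (y)` for the torus coordinates (`scaledImageX`).

**Degenerate divisors.** Let `h_1, …, h_M` be polynomials in `t`, irreducible over `ℂ`, whose
coefficients are algebraic numbers in `K`. The family degenerates along the hypersurfaces `h_l = 0` of
the space of parameters in the following sense (`DegeneratesAlongK`):
* `c_i` vanishes along `h_l = 0` exactly to the order `e_{l i} > 0`, and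
* at one point `t` of the hypersurface `h_l = 0` (with coordinates algebraic over `K`) no point of
  `B_t` lies on `m + 1` of the divisors of the `f_i`.

**Independent orders.** Let `τ = max_{s ≤ m} (k - 1 - s) C(k, s)` (`torusNumber`) and let `T` bound the
degrees of the `R_i` (`T = 1` for level one). We assume (`Independent`) that all square minors of the
matrix of the orders `e_{l j}` of the torus coordinates are different from zero and that
1. `M ≥ m + 1 + max(1, τ)`, and no product of some of the orders `e_{l i}` of the modular coordinates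
   (for a nonempty set of pairs `(l, i)`) with a positive number `a ≤ T^(2 M n)` is a square, or
2. `M ≥ C(min(m + 2, n), 2) + τ + 1`, and `a e_{l i} e_{l j} e_{l' i} e_{l' j}` is not a square for
   the modular coordinates `i ≠ j`, `l ≠ l'`, `1 ≤ a ≤ T^8`.

**Theorem.** Let `ω_0 ≠ 0, ω_1, …, ω_r` be algebraic numbers in `K`, for example an integral basis of a
number field `F ⊆ K`, `[F : ℚ] = r + 1`. Then, for each `ε > 0`, for all but
`O(H^(q (r + 1) - 1 + ε))` of the integral `u = (u_{j b})` with `|u_{j b}| ≤ H` the member `X_t` with the
parameters `t_j = ∑_b ω_b u_{j b}` has no atypical intersection with the special subvarieties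
`Z × (torsion coset)` of `Y(1)^n × G_m^k`: every irreducible closed subset of the intersection has
dimension at most `dim Z + dim (coset) + m - n - k`, and the same bound holds for the transcendence
degrees of its points over `K`. The constant coordinates of `Z` can be special points or integral over
the ring generated by any given finite subset `Γ` of `K`, and instead of torsion cosets also the
cosets of subtori by points whose coordinates are units integral over that ring are allowed.

So for one hundred percent of the `t ∈ O_F^q`, with a power saving, `X_t` has no atypical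
intersections; the points of `P^(q - 1)(F)` are included, being given by vectors in `O_F^q`.

**New.** The starting files about families of sets in `Y(1)^n × G_m^k` have one parameter and a number of
degenerate members which grows with `n`; our file `MP_defd1c_ag/MultiParameterFamilies` is about
integral parameters, divisors defined over `ℤ` and families defined over the algebraic numbers. A
divisor over a number field cannot be treated by restriction of scalars in that theorem: its norm is
not irreducible over `ℂ`, and the family need not degenerate along the conjugate divisors. The case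
`k = 0` is our `MP_130685_nt/NumberFieldFamilies`.
-/

set_option autoImplicit false

namespace Pool.Agent.Results.MP_a325a5_ag.NumberFieldFamilies

open MvPolynomial Pool.Agent.X295 Pool.Agent.Y152.RP.FamM

/-- The number `max {(k - 1 - s) C(k, s) : 0 ≤ s ≤ m}`. -/
def torusNumber (k m : ℕ) : ℕ := (Finset.range (m + 1)).sup fun s => (k - 1 - s) * k.choose s

/-- The orders `e` along the `M` hypersurfaces are positive and independent. The last
condition says that all square minors of the matrix of the orders of the torus coordinates are
nonzero: a vector supported on a set `J` of columns and orthogonal to at least `|J|` rows is zero. -/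
def Independent {n k M : ℕ} (T m : ℕ) (e : Fin M → Fin n ⊕ Fin k → ℕ) : Prop :=
  (∀ l i, 0 < e l i) ∧
  ((m + 1 + max 1 (torusNumber k m) ≤ M ∧
    ∀ P : Finset (Fin M × Fin n), P.Nonempty → ∀ a, 0 < a → a ≤ T ^ (2 * (M * n)) →
      ¬ IsSquare (a * ∏ p ∈ P, e p.1 (Sum.inl p.2))) ∨
  ((min (m + 2) n).choose 2 + torusNumber k m + 1 ≤ M ∧
    ∀ l l', l ≠ l' → ∀ i j : Fin n, i ≠ j → ∀ a, 0 < a → a ≤ T ^ 8 →
      ¬ IsSquare (a * (e l (Sum.inl i) * e l (Sum.inl j) *
        (e l' (Sum.inl i) * e l' (Sum.inl j)))))) ∧
  ∀ (s : Finset (Fin M)) (J : Finset (Fin k)) (b : Fin k → ℤ), J.card ≤ s.card →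
    (∀ j, j ∉ J → b j = 0) → (∀ l ∈ s, ∑ j, b j * (e l (Sum.inr j) : ℤ) = 0) → b = 0

/-- Zilber-Pink in `Y(1)^n × G_m^k` for families with `q` parameters over any countable field, which
degenerate along sufficiently many hypersurfaces over a number field, for all but
`O(H^(q (r + 1) - 1 + ε))` of the parameters in a box of size `H` of a lattice of rank `q (r + 1)` in
a number field. -/
theorem result (K : Subfield ℂ) [Countable K] (κ : Type) [Finite κ]
    (q N n k m M T r : ℕ) (_hk : 0 < k) (ω : Fin (r + 1) → K) (hω0 : ω 0 ≠ 0)
    (hω : ∀ b, IsAlgebraic ℚ (ω b : ℂ))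
    (G : κ → MvPolynomial (Fin (N + 1)) (MvPolynomial (Fin q) K))
    (hG : ∀ a, ∃ e, (G a).IsHomogeneous e)
    (A B : Fin n ⊕ Fin k → MvPolynomial (Fin (N + 1)) (MvPolynomial (Fin q) K))
    (d : Fin n ⊕ Fin k → ℕ)
    (hA : ∀ i, (A i).IsHomogeneous (d i)) (hB : ∀ i, (B i).IsHomogeneous (d i))
    (R : Fin n → Polynomial (Polynomial K)) (hR : ∀ i, (R i).Monic)
    (hT : ∀ i u w, ((R i).coeff u).coeff w ≠ 0 → u ≤ T ∧ w ≤ T)
    (c : Fin n ⊕ Fin k → MvPolynomial (Fin q) K) (h : Fin M → MvPolynomial (Fin q) K)
    (e : Fin M → Fin n ⊕ Fin k → ℕ) (hdeg : ∀ l, DegeneratesAlongK m G A B c (h l) (e l))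
    (hind : Independent T m e)
    (Γ : Finset ℂ) (hΓ : ∀ γ ∈ Γ, γ ∈ K) (ε : ℝ) (hε : 0 < ε) :
    ∃ C : ℝ, ∀ H : ℕ, 1 ≤ H →
      ({u : Fin q → Fin (r + 1) → ℤ | (∀ j b, |u j b| ≤ H) ∧
        ¬ NoAtypical (algebraMap (Algebra.adjoin ℤ (Γ : Set ℂ)) ℂ) K m
          (scaledImageX (fun j => ∑ b, (ω b : ℂ) * (u j b : ℂ)) G A B R c)}.ncard : ℝ) ≤
        C * (H : ℝ) ^ ((q : ℝ) * (r + 1) - 1 + ε) := by
  obtain ⟨C, hC⟩ := familyNFM K κ q N n k m M T r ω hω0 hω G hG A B d hA hB R hR hT c h e hdeg Γ hΓ
    ε hε hind
  refine ⟨C, fun H hH => ?_⟩
  have h1 : {u : Fin q → Fin (r + 1) → ℤ | (∀ j b, |u j b| ≤ H) ∧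
        ¬ NoAtypical (algebraMap (Algebra.adjoin ℤ (Γ : Set ℂ)) ℂ) K m
          (scaledImageX (fun j => ∑ b, (ω b : ℂ) * (u j b : ℂ)) G A B R c)} =
      {u : Fin q → Fin (r + 1) → ℤ | ¬ NoAtypical (algebraMap (Algebra.adjoin ℤ (Γ : Set ℂ)) ℂ) K m
        (scaledImageX (fun j => ∑ b, (ω b : ℂ) * (u j b : ℂ)) G A B R c)} ∩
          {u | ∀ j b, |u j b| ≤ H} := by
    ext u
    exact and_comm
  rw [h1]
  exact hC H hH

end Pool.Agent.Results.MP_a325a5_ag.NumberFieldFamilies
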